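import Pool.Agent.Helper60_AEU.Stmt

/-!
AEU (MP_5b0138_an), Part III, module BLC: the mass of the loops is the sum of the fluxes up to a
bad event.
-/

namespace Pool.Agent.H60K.H53B

open MeasureTheory Complex Filter Topology ProbabilityTheory Pool.Agent.H16Iso Pool.Agent.H62T
  Pool.Agent.H16F Pool.Agent.H38KL
open scoped ENNReal NNReal

variable {n : ℕ} [NeZero n]

/-! ### Rotation of the indices -/

/-- rotation of a configuration -/
def rotE (α : Type) (j : Fin n) : (Fin n → α) ≃ (Fin n → α) :=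
  (Equiv.addRight j).symm.arrowCongr (Equiv.refl α)

theorem rotE_apply {α : Type} (j : Fin n) (A : Fin n → α) : rotE α j A = fun i => A (i + j) := rfl

theorem rot_mp (j : Fin n) :
    MeasurePreserving (fun (x : Fin n → ℂ) (i : Fin n) => x (i + j)) volume volume := by
  have h := (volume_measurePreserving_piCongrLeft (fun _ : Fin n => ℂ) (Equiv.addRight j)).symm
  exact h

theorem integral_rot (j : Fin n) (f : (Fin n → ℂ) → ℝ) :
    ∫ x, f x = ∫ x : Fin n → ℂ, f (fun i => x (i + j)) := by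
  have h := (volume_measurePreserving_piCongrLeft (fun _ : Fin n => ℂ) (Equiv.addRight j)).symm
  have h2 := h.integral_comp (MeasurableEquiv.measurableEmbedding _) f
  rw [← h2]
  rfl

theorem wt_rot (u : Fin 3 → ℂ) (h : Fin 3 → ℝ) (τ : Fin n → ℝ) (x : Fin n → ℂ)
    (A : Fin n → Finset (Fin 3)) (j : Fin n) :
    wt u h (fun i => τ (i + j)) (fun i => x (i + j)) (fun i => A (i + j)) = wt u h τ x A := by
  unfold wt
  refine Fintype.prod_equiv (Equiv.addRight j) _ _ (fun i => ?_)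
  simp only [Equiv.coe_addRight]
  rw [add_right_comm]

theorem Fj_rot (O : Finset (Fin 3)) (A : Fin n → Finset (Fin 3)) (j : Fin n) :
    Fj O (fun i => A (i + j)) 0 ↔ Fj O A j := by
  unfold Fj
  simp only [zero_add, add_comm _ j]

theorem disj_rot (E : Finset (Fin 3)) (A : Fin n → Finset (Fin 3)) (j : Fin n) :
    (∀ i, Disjoint (A (i + j)) E) ↔ ∀ i, Disjoint (A i) E := by
  constructor
  · intro h i
    have := h (i - j)
    rwa [sub_add_cancel] at this
  · intro h i
    exact h _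

theorem Fj_vis {O E : Finset (Fin 3)} {A : Fin n → Finset (Fin 3)} {j : Fin n}
    (h : Fj O A j) (hE : ∀ j, Disjoint (A j) E) : Vis (insert 0 O) E A := by
  obtain ⟨k, -, -, h0, hs⟩ := h
  refine ⟨fun s hsO => ?_, hE⟩
  rcases Finset.mem_insert.1 hsO with rfl | hsO
  · exact ⟨_, h0⟩
  · obtain ⟨l, -, -, hl⟩ := hs s hsO
    exact ⟨_, hl⟩

open Classical in
/-- The flux through block `j`. -/
theorem TC_rot (u : Fin 3 → ℂ) (h : Fin 3 → ℝ) (τ : Fin n → ℝ) (O E : Finset (Fin 3)) (ξ1 : ℝ)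
    (j : Fin n) : TC u h (fun i => τ (i + j)) O E ξ1 =
      ∑ A : Fin n → Finset (Fin 3), ∫ x, (ch ξ1 (x (j + 1)) - ch ξ1 (x j)) *
        (if Fj O A j ∧ ∀ i, Disjoint (A i) E then wt u h τ x A else 0) := by
  unfold TC
  rw [← Equiv.sum_comp (rotE (Finset (Fin 3)) j)]
  refine Finset.sum_congr rfl (fun A _ => ?_)
  rw [rotE_apply, integral_rot j]
  refine integral_congr_ae (Eventually.of_forall fun x => ?_)
  simp only [wt_rot, Fj_rot, disj_rot, zero_add]
  rw [add_comm 1 j]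

theorem ch_cases (ξ1 : ℝ) (x : ℂ) : 0 ≤ ch ξ1 x ∧ ch ξ1 x ≤ 1 := by
  unfold ch
  split_ifs <;> norm_num

theorem ch_measurable (ξ1 : ℝ) : Measurable (ch ξ1) := by
  unfold ch
  exact Measurable.ite (measurableSet_le measurable_const Complex.measurable_re) measurable_const
    measurable_const

theorem wt_nonneg (hL : LabStatement) (u : Fin 3 → ℂ) (h : Fin 3 → ℝ) (hu : ∀ s, ‖u s‖ = 1)
    (τ : Fin n → ℝ) (hτ : ∀ j, 0 < τ j) (x : Fin n → ℂ) (A : Fin n → Finset (Fin 3)) :
    0 ≤ wt u h τ x A := by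
  unfold wt
  refine Finset.prod_nonneg fun j _ => ?_
  have h1 := (hL u h hu).2 (τ j) (x j) (x (j + 1)) (hτ j)
  exact h1.1 (A j)

theorem comp_meas {X : Type} [MeasurableSpace X] (f : ℝ → ℂ → ℂ → ℝ)
    (hf : Measurable fun p : ℝ × ℂ × ℂ => f p.1 p.2.1 p.2.2) (a : ℝ) (b c : X → ℂ)
    (hb : Measurable b) (hc : Measurable c) : Measurable fun x => f a (b x) (c x) :=
  hf.comp (measurable_const.prodMk (hb.prodMk hc))

theorem kA_meas (hL : LabStatement) (u : Fin 3 → ℂ) (h : Fin 3 → ℝ) (hu : ∀ s, ‖u s‖ = 1)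
    (A : Finset (Fin 3)) (a : ℝ) {X : Type} [MeasurableSpace X] (b c : X → ℂ)
    (hb : Measurable b) (hc : Measurable c) : Measurable fun x => kA u h A a (b x) (c x) := by
  have h1 := (hL u h hu).1
  exact comp_meas (kA u h A) (h1 A) a b c hb hc

omit [NeZero n] in
theorem kA_meas2 (hL : LabStatement) (u : Fin 3 → ℂ) (h : Fin 3 → ℝ) (hu : ∀ s, ‖u s‖ = 1)
    (τ : Fin n → ℝ) (A : Fin n → Finset (Fin 3)) (j k : Fin n) :
    Measurable fun x : Fin n → ℂ => kA u h (A j) (τ j) (x j) (x k) := by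
  have h1 : ∀ j : Fin n, Measurable fun x : Fin n → ℂ => x j := fun j => by fun_prop
  exact kA_meas hL u h hu (A j) (τ j) _ _ (h1 j) (h1 k)

omit [NeZero n] in
theorem prod_meas {X : Type} [MeasurableSpace X] (f : Fin n → X → ℝ) (h : ∀ j, Measurable (f j)) :
    Measurable fun x => ∏ j, f j x := Finset.measurable_fun_prod Finset.univ (fun j _ => h j)

theorem wt_measurable (hL : LabStatement) (u : Fin 3 → ℂ) (h : Fin 3 → ℝ) (hu : ∀ s, ‖u s‖ = 1)
    (τ : Fin n → ℝ) (A : Fin n → Finset (Fin 3)) : Measurable fun x => wt u h τ x A := by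
  have h3 := prod_meas (fun (j : Fin n) (x : Fin n → ℂ) => kA u h (A j) (τ j) (x j) (x (j + 1)))
    (fun j => kA_meas2 hL u h hu τ A j (j + 1))
  unfold wt
  exact h3

theorem sum_pos (τ : Fin n → ℝ) (hτ : ∀ j, 0 < τ j) : 0 < ∑ j, τ j :=
  Finset.sum_pos (fun j _ => hτ j) ⟨0, Finset.mem_univ _⟩

theorem kME_nonneg (hL : LabStatement) (u : Fin 3 → ℂ) (h : Fin 3 → ℝ) (hu : ∀ s, ‖u s‖ = 1)
    (M E : Finset (Fin 3)) (hME : Disjoint M E) (t : ℝ) (ht : 0 < t) (x y : ℂ) :
    0 ≤ kME u h M E t x y := by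
  have h1 := (hL u h hu).2 t x y ht
  rw [h1.2.2.1 M E hME]
  exact Finset.sum_nonneg fun A _ => h1.1 A

theorem kME_measurable (hL : LabStatement) (u : Fin 3 → ℂ) (h : Fin 3 → ℝ) (hu : ∀ s, ‖u s‖ = 1)
    (M E : Finset (Fin 3)) (hME : Disjoint M E) (t : ℝ) (ht : 0 < t) :
    Measurable fun x => kME u h M E t x x := by
  have h1 : (fun x => kME u h M E t x x) = fun x =>
      ∑ A ∈ (Eᶜ).powerset.filter (fun A => M ⊆ A), kA u h A t x x := by
    funext x
    exact ((hL u h hu).2 t x x ht).2.2.1 M E hME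
  rw [h1]
  refine Finset.measurable_fun_sum _ (fun A _ => ?_)
  exact comp_meas (kA u h A) ((hL u h hu).1 A) t (fun x => x) (fun x => x) measurable_id
    measurable_id

/-! ### The comparison -/

open Classical in
/-- the pointwise bound -/
theorem pointwise (hTEL : TelStatement) (A : Fin n → Finset (Fin 3)) (x : Fin n → ℂ)
    (O E : Finset (Fin 3)) (ξ1 w : ℝ) (hw : 0 ≤ w) (h0 : 0 ∉ O) (hO : O.Nonempty) :
    |(if Vis (insert 0 O) E A then w else 0) - ∑ j : Fin n, (ch ξ1 (x (j + 1)) - ch ξ1 (x j)) *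
        (if Fj O A j ∧ ∀ i, Disjoint (A i) E then w else 0)| ≤
      (n + 1) * (if Vis (insert 0 O) E A ∧ ¬ (Adp O ξ1 x A ∧ NoAlt O A) then w else 0) := by
  by_cases hV : Vis (insert 0 O) E A
  swap
  · have h1 : ∀ j, ¬ (Fj O A j ∧ ∀ i, Disjoint (A i) E) := fun j hj => hV (Fj_vis hj.1 hj.2)
    simp [hV, h1]
  have hE : ∀ i, Disjoint (A i) E := hV.2
  by_cases hG : Adp O ξ1 x A ∧ NoAlt O A
  · have hV' : Vis (insert 0 O) ∅ A := ⟨hV.1, fun j => Finset.disjoint_empty_right _⟩
    have h1 := hTEL n O (fun j => ch ξ1 (x j)) A h0 hO (fun j hj => by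
        have := hG.1.1 j hj
        unfold ch
        exact ⟨if_pos this.1, if_pos this.2⟩) (fun j s hs hsj => by
        have := hG.1.2 j s hs hsj
        unfold ch
        exact ⟨if_neg (not_le.2 this.1), if_neg (not_le.2 this.2)⟩) hV' hG.2
    have h2 : ∑ j : Fin n, (ch ξ1 (x (j + 1)) - ch ξ1 (x j)) *
        (if Fj O A j ∧ ∀ i, Disjoint (A i) E then w else 0) =
        w * ∑ j, (ch ξ1 (x (j + 1)) - ch ξ1 (x j)) * (if Fj O A j then 1 else 0) := by
      rw [Finset.mul_sum]
      refine Finset.sum_congr rfl (fun j _ => ?_)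
      by_cases hj : Fj O A j
      · rw [if_pos ⟨hj, hE⟩, if_pos hj]; ring
      · rw [if_neg (fun h => hj h.1), if_neg hj]; ring
    rw [h2, h1, if_pos hV, mul_one, sub_self, abs_zero, if_neg (fun h => h.2 hG), mul_zero]
  · rw [if_pos hV, if_pos ⟨hV, hG⟩]
    have h1 : |∑ j : Fin n, (ch ξ1 (x (j + 1)) - ch ξ1 (x j)) *
        (if Fj O A j ∧ ∀ i, Disjoint (A i) E then w else 0)| ≤ n * w := by
      calc |∑ j : Fin n, (ch ξ1 (x (j + 1)) - ch ξ1 (x j)) *
          (if Fj O A j ∧ ∀ i, Disjoint (A i) E then w else 0)| ≤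
          ∑ j : Fin n, |(ch ξ1 (x (j + 1)) - ch ξ1 (x j)) *
          (if Fj O A j ∧ ∀ i, Disjoint (A i) E then w else 0)| := Finset.abs_sum_le_sum_abs _ _
        _ ≤ ∑ j : Fin n, w := by
          refine Finset.sum_le_sum fun j _ => ?_
          rw [abs_mul]
          have a1 := ch_cases ξ1 (x (j + 1))
          have a2 := ch_cases ξ1 (x j)
          have a3 : |ch ξ1 (x (j + 1)) - ch ξ1 (x j)| ≤ 1 := by
            rw [abs_le]; constructor <;> linarith
          have a4 : |(if Fj O A j ∧ ∀ i, Disjoint (A i) E then w else 0)| ≤ w := by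
            split_ifs
            · rw [abs_of_nonneg hw]
            · rw [abs_zero]; exact hw
          calc |ch ξ1 (x (j + 1)) - ch ξ1 (x j)| *
              |(if Fj O A j ∧ ∀ i, Disjoint (A i) E then w else 0)| ≤ 1 * w :=
                mul_le_mul a3 a4 (abs_nonneg _) zero_le_one
            _ = w := one_mul w
        _ = n * w := by
          rw [Finset.sum_const, Finset.card_univ, Fintype.card_fin, nsmul_eq_mul]
    calc |w - ∑ j : Fin n, (ch ξ1 (x (j + 1)) - ch ξ1 (x j)) *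
        (if Fj O A j ∧ ∀ i, Disjoint (A i) E then w else 0)| ≤ |w| +
        |∑ j : Fin n, (ch ξ1 (x (j + 1)) - ch ξ1 (x j)) *
        (if Fj O A j ∧ ∀ i, Disjoint (A i) E then w else 0)| := abs_sub _ _
      _ ≤ w + n * w := by rw [abs_of_nonneg hw]; linarith
      _ = (n + 1) * w := by ring

open Classical in
/-- BLC -/
theorem blc (hB : BlvStatement) (hTEL : TelStatement) (hL : LabStatement) : BlcStatement := by
  intro u h hu n _ τ _ hτ O E ξ1 h0 hO hdisj hfin
  have htpos : 0 < ∑ j, τ j := sum_pos τ hτ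
  have hWm : ∀ A, Measurable fun x => wt u h τ x A := wt_measurable hL u h hu τ
  have hWn : ∀ A x, 0 ≤ wt u h τ x A := fun A x => wt_nonneg hL u h hu τ hτ x A
  have hfin1 : ∀ A : Fin n → Finset (Fin 3), (∫⁻ x, if Vis (insert 0 O) E A then
      ENNReal.ofReal (wt u h τ x A) else 0) ≠ ⊤ := by
    intro A hA
    apply hfin
    unfold Ms
    exact ENNReal.sum_eq_top.2 ⟨A, Finset.mem_univ _, hA⟩
  have hint : ∀ A, Vis (insert 0 O) E A → Integrable (fun x => wt u h τ x A) := by
    intro A hA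
    have h1 := hfin1 A
    simp only [if_pos hA] at h1
    refine ⟨(hWm A).aestronglyMeasurable, ?_⟩
    rw [hasFiniteIntegral_iff_ofReal (Eventually.of_forall (hWn A))]
    exact lt_top_iff_ne_top.2 h1
  -- the mass
  have hVM : VM u h (insert 0 O) E (∑ j, τ j) =
      ∑ A : Fin n → Finset (Fin 3), ∫ x, (if Vis (insert 0 O) E A then wt u h τ x A else 0) := by
    have h1 : VM u h (insert 0 O) E (∑ j, τ j) =
        (Ms u h τ (fun _ A => Vis (insert 0 O) E A)).toReal := by
      rw [← hB u h hu n τ hτ (insert 0 O) E hdisj]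
      unfold VM
      rw [integral_eq_lintegral_of_nonneg_ae
        (Eventually.of_forall fun x => kME_nonneg hL u h hu _ _ hdisj _ htpos x x)
        (kME_measurable hL u h hu _ _ hdisj _ htpos).aestronglyMeasurable]
    rw [h1]
    unfold Ms
    rw [ENNReal.toReal_sum (fun A _ => hfin1 A)]
    refine Finset.sum_congr rfl (fun A _ => ?_)
    by_cases hA : Vis (insert 0 O) E A
    · simp only [if_pos hA]
      rw [integral_eq_lintegral_of_nonneg_ae (Eventually.of_forall (hWn A))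
        (hWm A).aestronglyMeasurable]
    · simp only [if_neg hA]
      rw [lintegral_zero, integral_zero, ENNReal.toReal_zero]
  -- the fluxes
  have hchm : ∀ j : Fin n, Measurable fun x : Fin n → ℂ => ch ξ1 (x j) := fun j =>
    (ch_measurable ξ1).comp (measurable_pi_apply j)
  have hfint : ∀ (A : Fin n → Finset (Fin 3)) (j : Fin n),
      Integrable (fun x : Fin n → ℂ => (ch ξ1 (x (j + 1)) - ch ξ1 (x j)) *
        (if Fj O A j ∧ ∀ i, Disjoint (A i) E then wt u h τ x A else 0)) := by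
    intro A j
    by_cases hA : Fj O A j ∧ ∀ i, Disjoint (A i) E
    · simp only [if_pos hA]
      refine (hint A (Fj_vis hA.1 hA.2)).mono
        ((((hchm (j + 1)).sub (hchm j)).mul (hWm A)).aestronglyMeasurable)
        (Eventually.of_forall fun x => ?_)
      rw [norm_mul]
      have a1 := ch_cases ξ1 (x (j + 1))
      have a2 := ch_cases ξ1 (x j)
      have a3 : ‖ch ξ1 (x (j + 1)) - ch ξ1 (x j)‖ ≤ 1 := by
        rw [Real.norm_eq_abs, abs_le]; constructor <;> linarith
      exact mul_le_of_le_one_left (norm_nonneg _) a3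
    · simp only [if_neg hA, mul_zero]
      exact integrable_zero _ _ _
  have hTC : ∑ j : Fin n, TC u h (fun i => τ (i + j)) O E ξ1 =
      ∑ A : Fin n → Finset (Fin 3), ∫ x : Fin n → ℂ, ∑ j : Fin n,
        (ch ξ1 (x (j + 1)) - ch ξ1 (x j)) *
        (if Fj O A j ∧ ∀ i, Disjoint (A i) E then wt u h τ x A else 0) := by
    simp_rw [TC_rot]
    rw [Finset.sum_comm]
    refine Finset.sum_congr rfl (fun A _ => ?_)
    rw [integral_finsetSum _ (fun j _ => hfint A j)]
  have hVint : ∀ A : Fin n → Finset (Fin 3),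
      Integrable (fun x => if Vis (insert 0 O) E A then wt u h τ x A else 0) := by
    intro A
    by_cases hA : Vis (insert 0 O) E A
    · simp only [if_pos hA]; exact hint A hA
    · simp only [if_neg hA]; exact integrable_zero _ _ _
  have hdiff : VM u h (insert 0 O) E (∑ j, τ j) -
      ∑ j : Fin n, TC u h (fun i => τ (i + j)) O E ξ1 =
      ∑ A : Fin n → Finset (Fin 3), ∫ x : Fin n → ℂ,
        ((if Vis (insert 0 O) E A then wt u h τ x A else 0) - ∑ j : Fin n,
        (ch ξ1 (x (j + 1)) - ch ξ1 (x j)) *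
        (if Fj O A j ∧ ∀ i, Disjoint (A i) E then wt u h τ x A else 0)) := by
    rw [hVM, hTC, ← Finset.sum_sub_distrib]
    refine Finset.sum_congr rfl (fun A _ => ?_)
    rw [integral_sub (hVint A) (integrable_finsetSum _ fun j _ => hfint A j)]
  rw [hdiff]
  -- the bad event
  have hbad : ∀ A : Fin n → Finset (Fin 3), (∫⁻ x, if Vis (insert 0 O) E A ∧
      ¬ (Adp O ξ1 x A ∧ NoAlt O A) then ENNReal.ofReal (wt u h τ x A) else 0) ≠ ⊤ := by
    intro A
    refine ne_top_of_le_ne_top (hfin1 A) (lintegral_mono fun x => ?_)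
    by_cases h1 : Vis (insert 0 O) E A ∧ ¬ (Adp O ξ1 x A ∧ NoAlt O A)
    · rw [if_pos h1, if_pos h1.1]
    · rw [if_neg h1]; exact zero_le
  have hMs : (Ms u h τ (fun x A => Vis (insert 0 O) E A ∧
      ¬ (Adp O ξ1 x A ∧ NoAlt O A))).toReal = ∑ A : Fin n → Finset (Fin 3),
      (∫⁻ x, if Vis (insert 0 O) E A ∧
      ¬ (Adp O ξ1 x A ∧ NoAlt O A) then ENNReal.ofReal (wt u h τ x A) else 0).toReal := by
    rw [← ENNReal.toReal_sum (fun A _ => hbad A)]
    congr 1
    unfold Ms
    refine Finset.sum_congr rfl (fun A _ => lintegral_congr fun x => ?_)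
    by_cases h1 : Vis (insert 0 O) E A ∧ ¬ (Adp O ξ1 x A ∧ NoAlt O A)
    · exact (if_pos h1).trans (if_pos h1).symm
    · exact (if_neg h1).trans (if_neg h1).symm
  rw [hMs, Finset.mul_sum]
  refine (Finset.abs_sum_le_sum_abs _ _).trans (Finset.sum_le_sum fun A _ => ?_)
  have hn1 : (0 : ℝ) ≤ n + 1 := by positivity
  have hptw : ∀ x : Fin n → ℂ, ENNReal.ofReal ‖(if Vis (insert 0 O) E A then wt u h τ x A else 0)
      - ∑ j : Fin n, (ch ξ1 (x (j + 1)) - ch ξ1 (x j)) *
        (if Fj O A j ∧ ∀ i, Disjoint (A i) E then wt u h τ x A else 0)‖ ≤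
      ENNReal.ofReal (n + 1) * (if Vis (insert 0 O) E A ∧ ¬ (Adp O ξ1 x A ∧ NoAlt O A) then
        ENNReal.ofReal (wt u h τ x A) else 0) := by
    intro x
    have h1 := pointwise hTEL A x O E ξ1 (wt u h τ x A) (hWn A x) h0 hO
    rw [Real.norm_eq_abs]
    refine (ENNReal.ofReal_le_ofReal h1).trans ?_
    rw [ENNReal.ofReal_mul hn1]
    split_ifs with h2
    · exact le_rfl
    · rw [ENNReal.ofReal_zero]
  have hkey := norm_integral_le_lintegral_norm (μ := volume) (fun x : Fin n → ℂ =>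
    ((if Vis (insert 0 O) E A then wt u h τ x A else 0) - ∑ j : Fin n,
        (ch ξ1 (x (j + 1)) - ch ξ1 (x j)) *
        (if Fj O A j ∧ ∀ i, Disjoint (A i) E then wt u h τ x A else 0)))
  rw [Real.norm_eq_abs] at hkey
  refine hkey.trans ?_
  have hle := lintegral_mono (μ := volume) hptw
  rw [lintegral_const_mul' _ _ ENNReal.ofReal_ne_top] at hle
  have htop : ENNReal.ofReal (n + 1) * (∫⁻ x, if Vis (insert 0 O) E A ∧
      ¬ (Adp O ξ1 x A ∧ NoAlt O A) then ENNReal.ofReal (wt u h τ x A) else 0) ≠ ⊤ :=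
    ENNReal.mul_ne_top ENNReal.ofReal_ne_top (hbad A)
  refine (ENNReal.toReal_mono htop hle).trans ?_
  rw [ENNReal.toReal_mul, ENNReal.toReal_ofReal hn1]

end Pool.Agent.H60K.H53B
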