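import Pool.Agent.Helper60_AEU.Stmt

/-!
AEU (MP_5b0138_an), Part III, module INV: invariance of the kernels under isometries.
-/

namespace Pool.Agent.H60K.H53

open MeasureTheory Complex Filter Topology ProbabilityTheory Pool.Agent.H16Iso Pool.Agent.H62T
  Pool.Agent.H16F Pool.Agent.H38KL
open scoped ENNReal NNReal

theorem mp (g : ℂ ≃ᵢ ℂ) : MeasurePreserving g volume volume := by
  have h1 : ∀ z, g z = g.toRealLinearIsometryEquiv z + g 0 := by
    intro z
    rw [IsometryEquiv.toRealLinearIsometryEquiv_apply]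
    ring
  have h2 : MeasurePreserving (fun z => g.toRealLinearIsometryEquiv z + g 0) volume volume :=
    (measurePreserving_add_right volume (g 0)).comp
      (LinearIsometryEquiv.measurePreserving g.toRealLinearIsometryEquiv)
  have h3 : (g : ℂ → ℂ) = fun z => g.toRealLinearIsometryEquiv z + g 0 := funext h1
  rw [h3]
  exact h2

theorem integral_isom (g : ℂ ≃ᵢ ℂ) (f : ℂ → ℝ) : ∫ z, f z = ∫ z, f (g z) :=
  ((mp g).integral_comp g.toHomeomorph.measurableEmbedding f).symm

theorem Ker_isom (g : ℂ ≃ᵢ ℂ) (D : Set ℂ) : ∀ (m : ℕ) (t : ℝ) (x y : ℂ),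
    Ker (g '' D) m t (g x) (g y) = Ker D m t x y := by
  intro m
  induction m with
  | zero =>
    intro t x y
    have h1 : ∀ x, (g '' D).indicator (fun _ => (1 : ℝ)) (g x) = D.indicator (fun _ => (1 : ℝ)) x := by
      intro x
      by_cases h : x ∈ D
      · rw [Set.indicator_of_mem h, Set.indicator_of_mem (Set.mem_image_of_mem g h)]
      · rw [Set.indicator_of_notMem h, Set.indicator_of_notMem]
        rintro ⟨y, hy, hxy⟩
        exact h (g.injective hxy ▸ hy)
    unfold Ker
    rw [h1, h1]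
    congr 1
    unfold G
    have : ‖g x - g y‖ = ‖x - y‖ := by
      rw [← dist_eq_norm, ← dist_eq_norm, g.dist_eq]
    rw [this]
  | succ m ih =>
    intro t x y
    unfold Ker
    rw [integral_isom g]
    refine integral_congr_ae (Eventually.of_forall fun z => ?_)
    change Ker (g '' D) m (t / 2) (g x) (g z) * Ker (g '' D) m (t / 2) (g z) (g y) = _
    rw [ih, ih]

theorem pD_isom (g : ℂ ≃ᵢ ℂ) (D : Set ℂ) (t : ℝ) (x y : ℂ) :
    pD (g '' D) t (g x) (g y) = pD D t x y := by
  unfold pD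
  congr 1
  funext m
  exact Ker_isom g D m t x y

theorem ip_isom (L : ℂ ≃ₗᵢ[ℝ] ℂ) (x y : ℂ) : ip (L x) (L y) = ip x y := by
  have h : ∀ z w : ℂ, ip z w = (‖z + w‖ ^ 2 - ‖z‖ ^ 2 - ‖w‖ ^ 2) / 2 := by
    intro z w
    unfold ip
    rw [← Complex.normSq_eq_norm_sq, ← Complex.normSq_eq_norm_sq, ← Complex.normSq_eq_norm_sq,
      Complex.normSq_apply, Complex.normSq_apply, Complex.normSq_apply, Complex.add_re,
      Complex.add_im]
    ring
  rw [h, h, ← map_add, L.norm_map, L.norm_map, L.norm_map]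

theorem ip_add (x y z : ℂ) : ip x (y + z) = ip x y + ip x z := by
  unfold ip
  rw [Complex.add_re, Complex.add_im]
  ring

theorem ip_sub_left (x y z : ℂ) : ip x (y - z) = ip x y - ip x z := by
  unfold ip
  rw [Complex.sub_re, Complex.sub_im]
  ring

/-- The isometry `x ↦ L x + b`. -/
noncomputable def iso (L : ℂ ≃ₗᵢ[ℝ] ℂ) (b : ℂ) : ℂ ≃ᵢ ℂ :=
  L.toIsometryEquiv.trans (IsometryEquiv.addRight b)

theorem iso_apply (L : ℂ ≃ₗᵢ[ℝ] ℂ) (b x : ℂ) : iso L b x = L x + b := rfl

theorem Dm_iso (u : Fin 3 → ℂ) (h : Fin 3 → ℝ) (L : ℂ ≃ₗᵢ[ℝ] ℂ) (b : ℂ) (B : Finset (Fin 3)) :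
    Dm (fun s => L (u s)) (fun s => h s + ip (L (u s)) b) B = iso L b '' Dm u h B := by
  ext x
  constructor
  · intro hx
    refine ⟨(iso L b).symm x, fun s hs => ?_, (iso L b).apply_symm_apply x⟩
    have h1 := hx s hs
    have h2 : x = L ((iso L b).symm x) + b := ((iso L b).apply_symm_apply x).symm
    rw [h2, ip_add, ip_isom] at h1
    linarith
  · rintro ⟨y, hy, rfl⟩ s hs
    rw [iso_apply, ip_add, ip_isom]
    have := hy s hs
    linarith

theorem Dm_perm (u : Fin 3 → ℂ) (h : Fin 3 → ℝ) (σ : Equiv.Perm (Fin 3)) (B : Finset (Fin 3)) :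
    Dm (fun s => u (σ s)) (fun s => h (σ s)) B = Dm u h (B.map σ.toEmbedding) := by
  ext x
  unfold Dm
  simp only [Set.mem_ofPred_eq, Finset.mem_map, Equiv.coe_toEmbedding, forall_exists_index, and_imp,
    forall_apply_eq_imp_iff₂]

theorem kME_perm (u : Fin 3 → ℂ) (h : Fin 3 → ℝ) (M E : Finset (Fin 3))
    (σ : Equiv.Perm (Fin 3)) (t : ℝ) (x y : ℂ) :
    kME (fun s => u (σ s)) (fun s => h (σ s)) M E t x y =
      kME u h (M.map σ.toEmbedding) (E.map σ.toEmbedding) t x y := by
  classical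
  unfold kME pB
  refine Finset.sum_bij (fun B _ => B.map σ.toEmbedding) ?_ ?_ ?_ ?_
  · intro B hB
    rw [Finset.mem_powerset] at hB ⊢
    exact Finset.map_subset_map.2 hB
  · intro B _ B' _ hBB
    exact Finset.map_injective _ hBB
  · intro B' hB'
    rw [Finset.mem_powerset] at hB'
    refine ⟨B'.map σ.symm.toEmbedding, ?_, ?_⟩
    · rw [Finset.mem_powerset]
      intro s hs
      rw [Finset.mem_map] at hs
      obtain ⟨r, hr, rfl⟩ := hs
      have := hB' hr
      rw [Finset.mem_map] at this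
      obtain ⟨q, hq, rfl⟩ := this
      simpa using hq
    · rw [Finset.map_map]
      convert Finset.map_refl using 2
      ext s
      simp
  · intro B _
    rw [Finset.card_map, Dm_perm, Finset.map_union]

/-- INV -/
theorem inv : InvStatement := by
  refine ⟨fun g D t x y _ _ => pD_isom g D t x y, ?_, ?_⟩
  · intro u h M E L b t _
    unfold VM
    rw [integral_isom (iso L b)]
    refine integral_congr_ae (Eventually.of_forall fun x => ?_)
    change kME (fun s => L (u s)) (fun s => h s + ip (L (u s)) b) M E t (iso L b x) (iso L b x) =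
      kME u h M E t x x
    unfold kME pB
    refine Finset.sum_congr rfl (fun B _ => ?_)
    rw [Dm_iso, pD_isom]
  · intro u h M E σ t _
    unfold VM
    refine integral_congr_ae (Eventually.of_forall fun x => ?_)
    exact kME_perm u h M E σ t x x

end Pool.Agent.H60K.H53
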